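import Pool.Agent.H.MP_e7c909_al.C

set_option autoImplicit false

namespace Pool.Agent.Results.MP_e7c909_al.No

open Pool.Agent.H.MP_e7c909_al

/-- A commutative ring lying in the localizing subcategory of `D(R)` generated by its residue
fields, whose spectrum is not weakly noetherian. -/
theorem result : ∃ (R : Type) (_ : CommRing R),
    @Star R _ (HasDerivedCategory.standard (ModuleCat.{0} R)) ∧
      ¬ WeaklyNoetherian (PrimeSpectrum R) :=
  ⟨T, inferInstance, letI := HasDerivedCategory.standard (ModuleCat.{0} T)
    fun _ hP h => star (cl hP) h, not_wn⟩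

end Pool.Agent.Results.MP_e7c909_al.No
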